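import Pool.Agent.H.MP_04e97d_an.A

namespace Pool.Agent.H.MP_04e97d_an

open Pool.Agent.H.MP_a83649_an Real Finset Complex
open scoped ComplexOrder

/-- the renormed space -/
def XN : Type := LP

noncomputable instance : AddCommGroup XN := inferInstanceAs (AddCommGroup LP)

noncomputable instance : Module ℂ XN := inferInstanceAs (Module ℂ LP)

noncomputable instance : NormedAddCommGroup XN := AddGroupNorm.toNormedAddCommGroup
  { toFun := NN
    map_zero' := NN_zero
    add_le' := NN_add
    neg' := fun x => le_antisymm (NN_mono fun i => (norm_neg _).le)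
      (NN_mono fun i => (norm_neg _).ge)
    eq_zero_of_map_eq_zero' := fun x h => norm_le_zero_iff.1 ((norm_le_NN x).trans_eq h) }

noncomputable instance : NormedSpace ℂ XN := ⟨NN_smul⟩

/-- the identity -/
noncomputable def eqv : XN ≃L[ℂ] LP :=
  LinearEquiv.toContinuousLinearEquivOfBounds (E := XN) (F := LP) (LinearEquiv.refl ℂ LP) 1
    (1 + CQ) (fun x => (norm_le_NN x).trans_eq (one_mul (NN x)).symm)
    fun x => ciSup_le (NN_le' x)

lemma eqv_norm (x : XN) : ‖x‖ = NN (eqv x) := rfl

theorem gen {X : Type} [NormedAddCommGroup X] [NormedSpace ℂ X] (e : X ≃L[ℂ] LP)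
    (he : ∀ x, ‖x‖ = NN (e x)) :
    Lat (fun x i => e x i) ∧ ∃ A : X →L[ℂ] X, Bad2 (fun x i => e x i) A := by
  have h1 : ∀ T x, e (e.symm.conjContinuousAlgEquiv T x) = T (e x) := fun T x => by simp
  have h2 := e.symm.conjContinuousAlgEquiv.symm_apply_apply Aop
  refine ⟨fun x y h => ?_, e.symm.conjContinuousAlgEquiv Aop, ?_,
    fun ω hω => sec_map _ _ (A_sec hω), fun t ht => ?_, fun h => not_hinf ?_,
    fun θ h0 h3 h4 => ?_⟩
  · rw [he, he]
    exact NN_mono h
  · exact (e.symm.surjective.denseRange.comp A_dense e.symm.continuous).comp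
      e.surjective.denseRange (e.symm.continuous.comp Aop.continuous)
  · rw [sg_map]
    refine ⟨fun x hx i => ?_, ContinuousLinearMap.opNorm_le_bound _ zero_le_one fun x => ?_⟩
    · beta_reduce
      rw [h1]
      exact sg_pos ht _ hx i
    · rw [he, he, h1, one_mul]
      exact NN_sg ht _
  · rw [← h2]
    exact hinf_map _ _ h
  · obtain ⟨B, hB⟩ := h4
    have := pow_map e.symm.conjContinuousAlgEquiv.symm _ hB
    rw [h2] at this
    exact not_pow h0 h3 ⟨_, this⟩

end Pool.Agent.H.MP_04e97d_an
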