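import Pool.Agent.H.MP_04e97d_an.Defs
import Pool.Agent.H.MP_a83649_an.E

namespace Pool.Agent.H.MP_04e97d_an

open Pool.Agent.H.MP_a83649_an Real Finset Complex
open scoped ComplexOrder

section
variable {X Y : Type} [NormedAddCommGroup X] [NormedSpace ℂ X] [NormedAddCommGroup Y]
  [NormedSpace ℂ Y] (φ : (X →L[ℂ] X) ≃A[ℂ] (Y →L[ℂ] Y)) (A : X →L[ℂ] X)

lemma zR_map (z : ℂ) : zR (φ A) z = φ (zR A z) := by
  have h : algebraMap ℂ _ z - φ A = φ (algebraMap ℂ _ z - A) := by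
    rw [map_sub, AlgHomClass.commutes]
  rw [zR, zR, map_smul, resolvent, resolvent, h]
  congr 1
  by_cases hu : IsUnit (algebraMap ℂ _ z - A)
  · obtain ⟨u, hu⟩ := hu
    rw [← hu, Ring.inverse_unit]
    exact Ring.inverse_unit (Units.map (φ : (X →L[ℂ] X) →* (Y →L[ℂ] Y)) u)
  · rw [Ring.inverse_non_unit _ hu, map_zero, Ring.inverse_non_unit]
    exact fun h => hu (by simpa using h.map φ.symm)

lemma fc_map (θ : ℝ) (f : ℂ → ℂ) : fc (φ A) θ f = φ (fc A θ f) := by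
  have h : ∀ y, ray (φ A) f y = φ (ray A f y) := fun y => by
    simp only [ray, zR_map, ← map_smul]
    exact φ.toContinuousLinearEquiv.integral_comp_comm _
  rw [fc, fc, h, h, map_smul, map_sub]

lemma phi_le : ∃ C, 0 ≤ C ∧ ∀ T, ‖φ T‖ ≤ C * ‖T‖ :=
  ⟨_, norm_nonneg _, (φ.toContinuousLinearEquiv : (X →L[ℂ] X) →L[ℂ] (Y →L[ℂ] Y)).le_opNorm⟩

lemma sec_map {ω : ℝ} (h : SecAt A ω) : SecAt (φ A) ω := by
  obtain ⟨C, hC, h1⟩ := phi_le φ
  refine ⟨by rw [AlgEquiv.spectrum_eq]; exact h.1, fun ε hε => ?_⟩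
  obtain ⟨M, hM⟩ := h.2 ε hε
  exact ⟨C * M, fun z hz => by
    rw [zR_map]; exact (h1 _).trans (mul_le_mul_of_nonneg_left (hM z hz) hC)⟩

lemma hinf_map (h : HInf A) : HInf (φ A) := by
  obtain ⟨C, hC, h1⟩ := phi_le φ
  obtain ⟨ω, θ, σ, M, h2, h3, h4, h5, h6, h7⟩ := h
  refine ⟨ω, θ, σ, C * M, h2, h3, h4, h5, sec_map φ A h6, fun f N hf hN => ?_⟩
  rw [fc_map, mul_assoc]
  exact (h1 _).trans (mul_le_mul_of_nonneg_left (h7 f N hf hN) hC)

lemma pow_map {θ s : ℝ} {B : X →L[ℂ] X} (h : IsPow A θ s B) : IsPow (φ A) θ s (φ B) := by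
  rw [IsPow, fc_map, fc_map, ← map_mul, h]

lemma sg_map [CompleteSpace X] (t : ℝ) : sg (φ A) t = φ (sg A t) := by
  rw [sg, sg, ← map_smul]
  exact (NormedSpace.map_exp_of_mem_ball (𝕂 := ℂ) φ φ.continuous _
    ((NormedSpace.expSeries_radius_eq_top ℂ (X →L[ℂ] X)).symm ▸ edist_lt_top _ _)).symm

end

lemma not_pow {θ : ℝ} (h0 : 0 < θ) (h2 : θ < π) : ¬ ∃ B, IsPow Aop θ 1 B := by
  rintro ⟨B, h7⟩
  have h3 : reg = rho 1 1 := funext fun z => by simp only [reg, rho, ofReal_one]; ring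
  have h4 : Cl ((θ + π) / 2) reg :=
    h3 ▸ rho_cl (by linarith) (by linarith) one_pos one_pos
  have h5 := fc_mult h4 (by linarith) h0 (by linarith)
  have h6 := fc_mult (h4.ip (by linarith)) (by linarith) h0 (by linarith)
  rw [IsPow, ofReal_one, one_mul] at h7
  have h8 : Mult B fun k => (lam k : ℂ) ^ I := fun j x => by
    have h9 := h6 j x
    rw [← h7, ContinuousLinearMap.mul_apply, h5] at h9
    beta_reduce at h9
    rw [mul_comm (_ ^ I), mul_assoc] at h9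
    refine mul_left_cancel₀ (div_ne_zero (ofReal_ne_zero.2 (lam_pos j).ne') (pow_ne_zero 2 ?_)) h9
    exact_mod_cast (add_pos one_pos (lam_pos j)).ne'
  obtain ⟨N, hN⟩ := unb (‖B‖ ^ (5 / 4 : ℝ))
  exact hN.not_ge (h8.sum_co le_rfl N)

lemma sg_mult (t : ℝ) : Mult (sg Aop t) fun k => (rexp (-t * lam k) : ℝ) := fun j x => by
  have h1 : ∀ n : ℕ, Mult (((-t : ℂ) • Aop) ^ n) fun k => (-t * lam k) ^ n := fun n => by
    induction n with
    | zero => exact Mult.one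
    | succ n ih => rw [pow_succ]; exact ih.mul (A_mult.smul _)
  have h2 := ((fs j).comp (ContinuousLinearMap.apply ℂ LP x)).hasSum
    (NormedSpace.exp_series_hasSum_exp' (𝕂 := ℂ) ((-t : ℂ) • Aop))
  simp only [ContinuousLinearMap.comp_apply, ContinuousLinearMap.apply_apply,
    ((h1 _).smul _) j x] at h2
  refine h2.unique ?_
  have := (NormedSpace.exp_series_hasSum_exp' (𝕂 := ℂ) (-t * lam j : ℂ)).mul_right (fs j x)
  rw [← Complex.exp_eq_exp_ℂ] at this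
  simpa using this

lemma sg_add (s t : ℝ) : sg Aop s * sg Aop t = sg Aop (s + t) :=
  ((sg_mult s).mul (sg_mult t)).ext (sg_mult _) fun k => by
    rw [← ofReal_mul, ← Real.exp_add]; congr 2; ring

lemma sg_zero : sg Aop 0 = 1 := (sg_mult 0).ext Mult.one fun k => by simp

lemma sg_le {t : ℝ} (ht : 0 ≤ t) : ‖sg Aop t‖ ≤ 1 + CQ := by
  have h0 : ∀ k, rexp (-t * lam k) ≤ 1 := fun k =>
    Real.exp_le_one_iff.2 (by have := lam_pos k; nlinarith)
  obtain ⟨T, h1, h2, -⟩ := exists_op (fun k => (rexp (-t * lam k) : ℝ)) (V := 1) fun N => by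
    have : ∀ k, ‖((rexp (-t * lam (k + 1)) : ℝ) : ℂ) - (rexp (-t * lam k) : ℝ)‖ =
        rexp (-t * lam (k + 1)) - rexp (-t * lam k) := fun k => by
      rw [← ofReal_sub, norm_real, Real.norm_of_nonneg (sub_nonneg.2 (Real.exp_le_exp.2
        (by have := lam_anti k.le_succ; nlinarith)))]
    simp only [this, sum_range_sub fun k => rexp (-t * lam k)]
    linarith [h0 N, Real.exp_pos (-t * lam 0)]
  rw [(sg_mult t).ext h1 fun _ => rfl]
  refine h2.trans (add_le_add ?_ (mul_one _).le)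
  rw [norm_real, Real.norm_of_nonneg (Real.exp_pos _).le]
  exact h0 0

/-- modulus -/
noncomputable def md (x : LP) : LP := ⟨fun i => (‖x i‖ : ℂ), (lp.memℓp x).mono' fun i => by simp⟩

lemma md_apply (x : LP) (i : ℕ) : md x i = (‖x i‖ : ℂ) := rfl

lemma nmono {x y : LP} (h : ∀ i, ‖x i‖ ≤ ‖y i‖) : ‖x‖ ≤ ‖y‖ := lp.norm_mono (by simp [P]) h

lemma md_norm (x : LP) : ‖md x‖ = ‖x‖ :=
  le_antisymm (nmono fun i => by simp [md_apply]) (nmono fun i => by simp [md_apply])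

lemma md_pos (x : LP) (i : ℕ) : 0 ≤ md x i := zero_le_real.2 (norm_nonneg _)

lemma pos_mono {T : LP →L[ℂ] LP} (hT : Pos ev T) {x y : LP} (h : ∀ i, x i ≤ y i) (i : ℕ) :
    T x i ≤ T y i := by
  have := hT (y - x) (fun i => sub_nonneg.2 (h i)) i
  rw [map_sub] at this
  exact sub_nonneg.1 this

lemma norm_le_of {x y : LP} (h0 : ∀ i, 0 ≤ x i) (h : ∀ i, x i ≤ y i) : ‖x‖ ≤ ‖y‖ :=
  nmono fun i => (re_eq_norm.2 (h0 i)).symm.trans_le ((le_def.1 (h i)).1.trans (re_le_norm _))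

/-- real part -/
noncomputable def rp (x : LP) : LP :=
  ⟨fun i => ((x i).re : ℂ), (lp.memℓp x).mono' fun i => by simpa using abs_re_le_norm _⟩

lemma rp_le (x : LP) (i : ℕ) : rp x i ≤ md x i := real_le_real.2 (re_le_norm _)

lemma pos_abs {T : LP →L[ℂ] LP} (hT : Pos ev T) (x : LP) (i : ℕ) :
    (‖T x i‖ : ℂ) ≤ T (md x) i := by
  have h1 : ∀ y, (T (rp y) i).im = 0 := fun y =>
    (le_def.1 (pos_mono hT (rp_le y) i)).2.trans (le_def.1 (hT _ (md_pos y) i)).2.symm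
  obtain ⟨η, h2, h3⟩ := exists_norm_eq_mul_self (T x i)
  have h4 : η • x = rp (η • x) + I • rp (-I • η • x) := lp.ext (funext fun k => by
    show η * x k = ((η * x k).re : ℂ) + I * ((-I * (η * x k)).re : ℂ)
    apply Complex.ext <;> simp)
  have h5 : md (η • x) = md x := lp.ext (funext fun k => by
    show (‖η * x k‖ : ℂ) = ‖x k‖
    rw [norm_mul, h2, one_mul])
  have h6 : (‖T x i‖ : ℂ) = T (rp (η • x)) i + I * T (rp (-I • η • x)) i := by
    have : T (η • x) i = _ := congrArg (fun y => T y i) h4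
    rw [map_smul, map_add, map_smul] at this
    exact h3.trans this
  have h7 := pos_mono hT (rp_le (η • x)) i
  rw [h5] at h7
  refine le_of_eq_of_le (Complex.ext ?_ (by rw [h1, ofReal_im])) h7
  rw [h6, add_re, I_mul_re, h1, neg_zero, add_zero]

/-- the new norm -/
noncomputable def NN (x : LP) : ℝ := ⨆ t : Set.Ici (0 : ℝ), ‖sg Aop t (md x)‖

lemma NN_le' (x : LP) (t : Set.Ici (0 : ℝ)) : ‖sg Aop t (md x)‖ ≤ (1 + CQ) * ‖x‖ := by
  rw [← md_norm x]
  exact (sg Aop t).le_of_opNorm_le (sg_le t.2) _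

lemma le_NN (x : LP) {t : ℝ} (ht : 0 ≤ t) : ‖sg Aop t (md x)‖ ≤ NN x :=
  le_ciSup (f := fun t : Set.Ici (0 : ℝ) => ‖sg Aop t (md x)‖)
    ⟨_, by rintro _ ⟨t, rfl⟩; exact NN_le' x t⟩ ⟨t, ht⟩

lemma norm_le_NN (x : LP) : ‖x‖ ≤ NN x := by
  simpa [sg_zero, md_norm] using le_NN x le_rfl

lemma NN_mono {x y : LP} (h : ∀ i, ‖x i‖ ≤ ‖y i‖) : NN x ≤ NN y := ciSup_le fun t =>
  (norm_le_of (sg_pos t.2 _ (md_pos x)) (pos_mono (sg_pos t.2) (y := md y) fun i =>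
    real_le_real.2 (h i))).trans (le_NN y t.2)

lemma NN_add (x y : LP) : NN (x + y) ≤ NN x + NN y := ciSup_le fun t => by
  refine (norm_le_of (y := sg Aop t (md x + md y)) (sg_pos t.2 _ (md_pos _))
    (pos_mono (sg_pos t.2) fun i => ?_)).trans ?_
  · show ((‖x i + y i‖ : ℝ) : ℂ) ≤ ‖x i‖ + ‖y i‖
    exact_mod_cast norm_add_le _ _
  · rw [map_add]
    exact norm_add_le_of_le (le_NN x t.2) (le_NN y t.2)

lemma NN_smul (c : ℂ) (x : LP) : NN (c • x) ≤ ‖c‖ * NN x := ciSup_le fun t => by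
  have : md (c • x) = (‖c‖ : ℂ) • md x := lp.ext (funext fun k => by
    show (‖c * x k‖ : ℂ) = ‖c‖ * ‖x k‖
    rw [norm_mul, ofReal_mul])
  rw [this, map_smul, norm_smul, norm_real, norm_norm]
  exact mul_le_mul_of_nonneg_left (le_NN x t.2) (norm_nonneg c)

lemma NN_sg {s : ℝ} (hs : 0 ≤ s) (x : LP) : NN (sg Aop s x) ≤ NN x := ciSup_le fun t => by
  refine (norm_le_of (sg_pos t.2 _ (md_pos _))
    (pos_mono (sg_pos t.2) (pos_abs (sg_pos hs) x))).trans ?_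
  rw [← ContinuousLinearMap.mul_apply, sg_add]
  exact le_NN x (add_nonneg t.2 hs)

lemma NN_zero : NN 0 = 0 :=
  le_antisymm (by simpa using NN_smul 0 0) ((norm_nonneg _).trans (norm_le_NN _))

end Pool.Agent.H.MP_04e97d_an
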