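import Pool.Agent.H.MP_a83649_an.Defs

namespace Pool.Agent.H.MP_04e97d_an

open Pool.Agent.H.MP_a83649_an Real

variable {X : Type} [NormedAddCommGroup X] [NormedSpace ℂ X]

/-- the norm is a lattice norm for the coordinates `ev` -/
def Lat (ev : X → ℕ → ℂ) : Prop := ∀ x y : X, (∀ i, ‖ev x i‖ ≤ ‖ev y i‖) → ‖x‖ ≤ ‖y‖

/-- the counterexample property -/
def Bad2 (ev : X → ℕ → ℂ) (A : X →L[ℂ] X) : Prop :=
  DenseRange A ∧ (∀ ω, 0 < ω → SecAt A ω) ∧ (∀ t, 0 ≤ t → Pos ev (sg A t) ∧ ‖sg A t‖ ≤ 1) ∧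
    ¬ HInf A ∧ ∀ θ, 0 < θ → θ < π → ¬ ∃ B, IsPow A θ 1 B

end Pool.Agent.H.MP_04e97d_an
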